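import Pool.Agent.EDX.Stmts1

/-!
# Squad EDX (MP_74088a_nt): row INJ
-/

set_option autoImplicit false

namespace Pool.Agent.EDX.H98

open Polynomial Finset Pool.Agent.EDG Pool.Agent.EDX Module

/-- Vandermonde with a sequence of monic polynomials -/
theorem vdm {L : Type} [Field L] (H : ℕ → L[X]) (hm : ∀ e, (H e).Monic)
    (hd : ∀ e, (H e).natDegree = e) (n : ℕ) (y p : Fin n → L) (hy : Function.Injective y)
    (h0 : ∀ e < n, ∑ i, (H e).eval (y i) * p i = 0) : p = 0 := by
  classical
  let S : Polynomial.Sequence L :=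
    { elems' := H
      degree_eq' := fun e => by rw [degree_eq_natDegree (hm e).ne_zero, hd] }
  let φ : L[X] →ₗ[L] L := ∑ i, (p i) • (leval (y i))
  have hφ : ∀ f : L[X], φ f = ∑ i, f.eval (y i) * p i := by
    intro f
    simp only [φ, LinearMap.sum_apply, LinearMap.smul_apply, leval_apply, smul_eq_mul]
    exact Finset.sum_congr rfl fun i _ => mul_comm _ _
  have h1 : ∀ f : L[X], f.degree < (n : WithBot ℕ) → φ f = 0 := by
    intro f hf
    have h2 : f ∈ Submodule.span L (S '' Set.Iio n) := by
      rw [Polynomial.Sequence.span_degreeLT S (m := n) (fun i _ => by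
        have : (S i).leadingCoeff = 1 := hm i
        rw [this]; exact isUnit_one)]
      exact mem_degreeLT.mpr hf
    have h3 := LinearMap.eqOn_span (f := φ) (g := 0) (s := S '' Set.Iio n) ?_ h2
    · exact h3
    · rintro _ ⟨e, he, rfl⟩
      show φ (H e) = 0
      rw [hφ]
      exact h0 e he
  funext i
  have h2 := h1 (∏ j ∈ Finset.univ.erase i, (X - C (y j))) (by
    rw [degree_prod]
    simp only [degree_X_sub_C, Finset.sum_const, nsmul_eq_mul, mul_one]
    have h3 : (Finset.univ.erase i).card = n - 1 := by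
      rw [Finset.card_erase_of_mem (Finset.mem_univ i), Finset.card_univ, Fintype.card_fin]
    rw [h3]
    have h4 : 0 < n := Fin.pos i
    exact_mod_cast Nat.sub_lt h4 one_pos)
  rw [hφ, Finset.sum_eq_single i] at h2
  · rcases mul_eq_zero.1 h2 with h3 | h3
    · exfalso
      rw [eval_prod] at h3
      rw [Finset.prod_eq_zero_iff] at h3
      obtain ⟨j, hj, h4⟩ := h3
      rw [eval_sub, eval_X, eval_C, sub_eq_zero] at h4
      exact (Finset.mem_erase.1 hj).1 (hy h4).symm
    · exact h3
  · intro j _ hj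
    rw [eval_prod, Finset.prod_eq_zero (i := j), zero_mul]
    · exact Finset.mem_erase.2 ⟨hj, Finset.mem_univ j⟩
    · rw [eval_sub, eval_X, eval_C, sub_self]
  · intro hi
    exact absurd (Finset.mem_univ i) hi

/-- the row in a field `L` with a root `β` of `g` -/
theorem inj_aux (n : ℕ) (g : ℤ[X]) (hg : Cyc n g) (L : Type) [Field L] [Algebra ℚ L] (β : L)
    (hβ : ∀ p : ℚ[X], aeval β p = 0 ↔ g.map (Int.castRingHom ℚ) ∣ p)
    (P : Fin n × Fin g.natDegree → ℚ) (hP : ∀ e < n, mu n g P (hK e) = 0) : P = 0 := by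
  have hgm : (g.map (Int.castRingHom ℚ)).Monic := hg.monic.map _
  have haev : ∀ p : ℤ[X], aeval β p = aeval β (p.map (Int.castRingHom ℚ)) := by
    intro p
    have h1 := aeval_map_algebraMap ℚ β p
    rw [algebraMap_int_eq] at h1
    exact h1.symm
  -- the numbers
  have hdvd : ∀ e < n, ∑ i : Fin n, ev β (aeval β (Yp i)) (h e) * aeval β (pol P i) = 0 := by
    intro e he
    have h1 := hP e he
    rw [mu_hK] at h1
    have h2 : NP ℚ n g P e = 0 := iQ_injective (by rw [h1, map_zero])
    have h3 : (g.map (Int.castRingHom ℚ)) ∣ (∑ i : Fin n,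
        (ev (X : ℤ[X]) (Yp i) (h e)).map (Int.castRingHom ℚ) * pol P i) :=
      (modByMonic_eq_zero_iff_dvd hgm).1 h2
    have h4 : aeval β (∑ i : Fin n,
        (ev (X : ℤ[X]) (Yp i) (h e)).map (Int.castRingHom ℚ) * pol P i) = 0 := (hβ _).2 h3
    rw [map_sum] at h4
    rw [← h4]
    refine Finset.sum_congr rfl fun i _ => ?_
    rw [map_mul, ← haev, aeval_ev]
  -- injectivity
  have hex : ∀ m, 0 < m → m < n → aeval β (Yp m) ≠ aeval β (Yp 0) := by
    intro m h1 h2 h3
    apply hg.ex m h1 h2
    have h4 : aeval β (Yp m - Yp 0) = 0 := by rw [map_sub, h3, sub_self]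
    rw [haev, hβ] at h4
    exact (map_dvd_map (Int.castRingHom ℚ) Int.cast_injective hg.monic).1 h4
  have hper : aeval β (Yp n) = aeval β (Yp 0) := by
    obtain ⟨q, hq⟩ := hg.per
    have h1 : aeval β g = 0 := by
      rw [haev, hβ]
    have h2 : aeval β (Yp n - Yp 0) = 0 := by rw [hq, map_mul, h1, zero_mul]
    rw [map_sub] at h2
    exact sub_eq_zero.1 h2
  have hlt : ∀ i j : ℕ, i < j → j < n → aeval β (Yp i) ≠ aeval β (Yp j) := by
    intro i j hij hj heq
    refine hex (i + (n - j)) (by omega) (by omega) ?_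
    rw [aeval_Yp, it_add, ← aeval_Yp, heq, aeval_Yp, ← it_add, ← aeval_Yp,
      show j + (n - j) = n by omega, hper]
  have hinj : Function.Injective (fun i : Fin n => aeval β (Yp i)) := by
    intro i j hij
    by_contra hne
    rcases lt_or_gt_of_ne (fun h => hne (Fin.ext h) : (i : ℕ) ≠ j) with h | h
    · exact hlt i j h j.2 hij
    · exact hlt j i h i.2 hij.symm
  have hz := vdm (fun e => (h e).map (eval₂RingHom (Int.castRingHom L) β))
    (fun e => (h_monic e).map _)
    (fun e => by rw [(h_monic e).natDegree_map, h_natDegree]) n (fun i : Fin n => aeval β (Yp i))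
    (fun i => aeval β (pol P i)) hinj (fun e he => by
      rw [← hdvd e he]
      refine Finset.sum_congr rfl fun i _ => ?_
      rw [eval_map]
      rfl)
  funext x
  obtain ⟨i, j⟩ := x
  have h1 : aeval β (pol P i) = 0 := congrFun hz i
  rw [hβ] at h1
  have h2 : pol P i = 0 := by
    by_contra hne
    have h3 := degree_le_of_dvd h1 hne
    have h4 := pol_degree_lt P i
    rw [hg.monic.degree_map, degree_eq_natDegree hg.monic.ne_zero] at h3
    exact absurd (lt_of_le_of_lt h3 h4) (lt_irrefl _)
  have h3 := pol_coeff P i j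
  rw [h2, coeff_zero] at h3
  exact h3.symm

/-- **Row INJ** -/
theorem inj : InjStmt := by
  intro n g hg P hP
  have hirr : Irreducible (g.map (Int.castRingHom ℚ)) := by
    have h1 := (Polynomial.Monic.irreducible_iff_irreducible_map_fraction_map (K := ℚ)
      hg.monic).1 hg.irr
    rwa [algebraMap_int_eq] at h1
  have hf : Fact (Irreducible (g.map (Int.castRingHom ℚ))) := ⟨hirr⟩
  refine inj_aux n g hg (AdjoinRoot (g.map (Int.castRingHom ℚ))) (AdjoinRoot.root _)
    (fun p => ?_) P hP
  have h1 := AdjoinRoot.aeval_eq (f := g.map (Int.castRingHom ℚ)) p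
  have h2 := AdjoinRoot.mk_eq_zero (f := g.map (Int.castRingHom ℚ)) (g := p)
  rw [← h2, ← h1]
  rfl

end Pool.Agent.EDX.H98
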